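import Pool.Agent.Y259.TH.Cmb
import Pool.Agent.Y560.TH.TDd

/-!
# The tree of modules of a hereditarily decomposable structure (job TH-TDA of helper560)
-/

set_option autoImplicit false

namespace Pool.Agent.Y259.TH

open Set
open Pool.Agent.Y560.TH (Modl HDr bn cn bf Nd Ch Fs SS US TDF S_TDA)
open Pool.Agent.W875.TS (dm ml Mdl)

variable {r : ℕ → ℕ → ℕ → Bool}

lemma mdl_iff {X : Set ℕ} : Mdl (bn r) X ↔ MdB r X := by
  constructor
  · intro h u hu v hv w hw i
    constructor
    · have h1 := h i ![u, w] 0 1 v hu hv hw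
      have e : Function.update ![u, w] 0 v = ![v, w] := by
        funext j
        fin_cases j <;> rfl
      rw [e] at h1
      exact h1.symm
    · have h1 := h i ![w, u] 1 0 v hu hv hw
      have e : Function.update ![w, u] 1 v = ![w, v] := by
        funext j
        fin_cases j <;> rfl
      rw [e] at h1
      exact h1.symm
  · intro h i t k l b hk hb hl
    have h01 : ∀ k l : Fin 2, k ≠ l → (k = 0 ∧ l = 1) ∨ (k = 1 ∧ l = 0) := by decide
    have hkl : k ≠ l := by
      rintro rfl
      exact hl hk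
    show r i (Function.update t k b 0) (Function.update t k b 1) = r i (t 0) (t 1)
    rcases h01 k l hkl with ⟨rfl, rfl⟩ | ⟨rfl, rfl⟩
    · have e0 : Function.update t 0 b 0 = b := Function.update_self _ _ _
      have e1 : Function.update t 0 b 1 = t 1 := Function.update_of_ne hkl.symm _ _
      rw [e0, e1]
      exact (h (t 0) hk b hb (t 1) hl i).1.symm
    · have e0 : Function.update t 1 b 0 = t 0 := Function.update_of_ne hkl.symm _ _
      have e1 : Function.update t 1 b 1 = b := Function.update_self _ _ _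
      rw [e0, e1]
      exact (h (t 1) hk b hb (t 0) hl i).2.symm

lemma ml_eq (u v : ℕ) : ml (bn r) u v = mlB r u v := by
  ext w
  exact ⟨fun h X hX => h X (mdl_iff.mpr hX), fun h X hX => h X (mdl_iff.mp hX)⟩

lemma cn_iff {u v w : ℕ} : cn r u v w ↔ dmB r u v w := by
  show (w ∉ ml (bn r) u v ∧ v ∈ ml (bn r) u w ∧ u ∈ ml (bn r) v w) ↔ _
  rw [ml_eq, ml_eq, ml_eq]
  exact Iff.rfl

lemma cr_of (hr : HDr r) : CR r (cn r) where
  symm k := Pool.Agent.W875.TS.dm_symm k
  c2 k := Pool.Agent.W875.TS.dm_c2 k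
  c3 k z := Pool.Agent.W875.TS.dm_c3 k z
  refl k := Pool.Agent.W875.TS.dm_refl k
  irr u v := Pool.Agent.W875.TS.dm_irr u v
  md k i := mlB_md (cn_iff.mp k).1 i
  star h1 h2 h3 k1 k2 k3 :=
    star3 hr h1 h2 h3 (fun k => k1 (cn_iff.mpr k)) (fun k => k2 (cn_iff.mpr k))
      (fun k => k3 (cn_iff.mpr k))

lemma us_ty (h : CR r (cn r)) {s : SS} {w : ℕ} (hw : w ∈ US r s) : Ty r (cn r) w (US r s) := by
  unfold US at hw ⊢
  by_cases h0 : s.2.2 = 0
  · rw [if_pos h0] at hw ⊢
    exact h.ty_nd hw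
  rw [if_neg h0] at hw ⊢
  by_cases h1 : s.2.2 = 1
  · rw [if_pos h1] at hw ⊢
    exact h.ty_chd hw
  · rw [if_neg h1] at hw ⊢
    exact h.ty_fs hw

/-- TDA -/
theorem t_TDA : S_TDA := by
  intro r hr
  have h := cr_of hr
  exact {
    lam := fun s t w hs ht => h.ty_lin (us_ty h hs) (us_ty h ht) hs ht
    col := fun u v u' v' huv _ hN b1 b2 i => h.col huv hN b1 b2 i
    node := fun a b u v _ _ ha hb => h.node ha hb
    child := fun a b u v _ huv ha hb => h.child huv ha hb
    fin1 := fun a b k => h.fin1 k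
    fin2 := fun a b u v _ k hb ha hc => h.fin2 k hb ha hc }

end Pool.Agent.Y259.TH
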