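import Mathlib

/-!
# The tree of modules of a hereditarily decomposable structure (job TH-TDA of helper560)

Combinatorial part, over Mathlib.
-/

set_option autoImplicit false

namespace Pool.Agent.Y259.TH

open Set

/-! ### Modules -/

/-- Modules of a family of binary relations on `ℕ`. -/
def MdB (r : ℕ → ℕ → ℕ → Bool) (X : Set ℕ) : Prop :=
  ∀ u ∈ X, ∀ v ∈ X, ∀ w, w ∉ X → ∀ i, r i u w = r i v w ∧ r i w u = r i w v

/-- The least module with `u` and `v`. -/
def mlB (r : ℕ → ℕ → ℕ → Bool) (u v : ℕ) : Set ℕ := {w | ∀ X, MdB r X → u ∈ X → v ∈ X → w ∈ X}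

/-- `X` is a module of the finite structure on `F`. -/
def MdF (r : ℕ → ℕ → ℕ → Bool) (F X : Finset ℕ) : Prop := X ⊆ F ∧
  ∀ u ∈ X, ∀ v ∈ X, ∀ w ∈ F, w ∉ X → ∀ i, r i u w = r i v w ∧ r i w u = r i w v

/-- All finite substructures with at least three elements have a proper module with at least two
elements. -/
def HB (r : ℕ → ℕ → ℕ → Bool) : Prop :=
  ∀ F : Finset ℕ, 3 ≤ F.card → ∃ X, MdF r F X ∧ 2 ≤ X.card ∧ X ≠ F

variable {r : ℕ → ℕ → ℕ → Bool}

lemma mlB_comm (u v : ℕ) : mlB r u v = mlB r v u := by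
  ext w
  exact ⟨fun h X hX hu hv => h X hX hv hu, fun h X hX hu hv => h X hX hv hu⟩

lemma mlB_left (u v : ℕ) : u ∈ mlB r u v := fun _ _ h _ => h

lemma mlB_right (u v : ℕ) : v ∈ mlB r u v := fun _ _ _ h => h

lemma mlB_md {u v w : ℕ} (h : w ∉ mlB r u v) (i : ℕ) : r i u w = r i v w ∧ r i w u = r i w v := by
  have h1 : ∃ X, MdB r X ∧ u ∈ X ∧ v ∈ X ∧ w ∉ X := by
    by_contra hcon
    apply h
    intro X hX hu hv
    by_contra hw
    exact hcon ⟨X, hX, hu, hv, hw⟩
  obtain ⟨X, hX, hu, hv, hw⟩ := h1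
  exact hX u hu v hv w hw i

/-- a finite witness -/
lemma fin_wit {u v w : ℕ} (h : w ∈ mlB r u v) : ∃ F : Finset ℕ, w ∈ F ∧
    ∀ F', F ⊆ F' → ∀ X, MdF r F' X → u ∈ X → v ∈ X → w ∈ X := by
  classical
  refine h {w | ∃ F : Finset ℕ, w ∈ F ∧
    ∀ F', F ⊆ F' → ∀ X, MdF r F' X → u ∈ X → v ∈ X → w ∈ X} ?_ ?_ ?_
  · rintro a ⟨Fa, ha, hFa⟩ b ⟨Fb, hb, hFb⟩ c hc i
    by_contra hne
    apply hc
    refine ⟨Fa ∪ Fb ∪ {c}, by simp, fun F' hF' X hX hu hv => ?_⟩
    by_contra hcX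
    have haX := hFa F' (fun z hz => hF' (by simp [hz])) X hX hu hv
    have hbX := hFb F' (fun z hz => hF' (by simp [hz])) X hX hu hv
    exact hne (hX.2 a haX b hbX c (hF' (by simp)) hcX i)
  · exact ⟨{u}, by simp, fun F' _ X _ hu _ => hu⟩
  · exact ⟨{v}, by simp, fun F' _ X _ _ hv => hv⟩

/-- a module with two elements -/
lemma two_mod (hr : HB r) (F : Finset ℕ) : 2 ≤ F.card → ∃ p q, p ≠ q ∧ MdF r F {p, q} := by
  classical
  induction F using Finset.strongInduction with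
  | H F ih =>
    intro h2
    rcases Nat.lt_or_ge 2 F.card with h3 | h3
    · obtain ⟨X, hX, hX2, hne⟩ := hr F h3
      obtain ⟨p, q, hpq, hm⟩ := ih X (Finset.ssubset_iff_subset_ne.mpr ⟨hX.1, hne⟩) hX2
      refine ⟨p, q, hpq, fun z hz => hX.1 (hm.1 hz), fun a ha b hb c hc hcn i => ?_⟩
      by_cases hcX : c ∈ X
      · exact hm.2 a ha b hb c hcX hcn i
      · exact hX.2 a (hm.1 ha) b (hm.1 hb) c hc hcX i
    · have h4 : F.card = 2 := le_antisymm h3 h2
      obtain ⟨p, q, hpq, rfl⟩ := Finset.card_eq_two.mp h4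
      exact ⟨p, q, hpq, Finset.Subset.refl _, fun a _ b _ c hc hcn => absurd hc hcn⟩

/-- extension of modules -/
lemma ext_mod {F : Finset ℕ} {p q : ℕ} (hpq : p ≠ q) (hm : MdF r F {p, q}) {X' : Finset ℕ}
    (hX : MdF r (F.erase q) X') : ∃ X, MdF r F X ∧ ∀ z, z ≠ q → (z ∈ X ↔ z ∈ X') := by
  classical
  have hp : p ∈ F := hm.1 (by simp)
  have hq : q ∈ F := hm.1 (by simp)
  have hmp : ∀ a ∈ F, a ≠ p → a ≠ q → ∀ i, r i p a = r i q a ∧ r i a p = r i a q := by
    intro a ha h1 h2 i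
    exact hm.2 p (by simp) q (by simp) a ha (by simp [h1, h2]) i
  by_cases hpX : p ∈ X'
  · refine ⟨insert q X', ⟨?_, ?_⟩, fun z hz => by simp [hz]⟩
    · intro z hz
      rcases Finset.mem_insert.mp hz with h | h
      · rw [h]; exact hq
      · exact Finset.mem_of_mem_erase (hX.1 h)
    · have key : ∀ a ∈ insert q X', ∀ c ∈ F, c ∉ insert q X' → ∀ i,
          r i a c = r i p c ∧ r i c a = r i c p := by
        intro a ha c hc hcn i
        rw [Finset.mem_insert, not_or] at hcn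
        have hcp : c ≠ p := fun h => hcn.2 (h ▸ hpX)
        rcases Finset.mem_insert.mp ha with h | h
        · have := hmp c hc hcp hcn.1 i
          rw [h]
          exact ⟨this.1.symm, this.2.symm⟩
        · exact hX.2 a h p hpX c (Finset.mem_erase.mpr ⟨hcn.1, hc⟩) hcn.2 i
      intro a ha b hb c hc hcn i
      have h1 := key a ha c hc hcn i
      have h2 := key b hb c hc hcn i
      exact ⟨h1.1.trans h2.1.symm, h1.2.trans h2.2.symm⟩
  · refine ⟨X', ⟨fun z hz => Finset.mem_of_mem_erase (hX.1 hz), ?_⟩, fun z _ => Iff.rfl⟩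
    intro a ha b hb c hc hcn i
    by_cases hcq : c = q
    · have hval : ∀ a ∈ X', r i q a = r i p a ∧ r i a q = r i a p := by
        intro a ha
        have h1 := Finset.mem_erase.mp (hX.1 ha)
        have := hmp a h1.2 (fun h => hpX (h ▸ ha)) h1.1 i
        exact ⟨this.1.symm, this.2.symm⟩
      have h1 := hval a ha
      have h2 := hval b hb
      have h3 := hX.2 a ha b hb p (Finset.mem_erase.mpr ⟨hpq, hp⟩) hpX i
      rw [hcq, h1.1, h1.2, h2.1, h2.2]
      exact h3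
    · exact hX.2 a ha b hb c (Finset.mem_erase.mpr ⟨hcq, hc⟩) hcn i

/-- the property of a finite set -/
def QF (r : ℕ → ℕ → ℕ → Bool) (F : Finset ℕ) (u v w : ℕ) : Prop :=
  ∀ X, MdF r F X → (u ∈ X → v ∈ X → w ∈ X) ∧ (u ∈ X → w ∈ X → v ∈ X) ∧ (v ∈ X → w ∈ X → u ∈ X)

lemma QF_step {F : Finset ℕ} {u v w p q : ℕ} (hpq : p ≠ q) (hm : MdF r F {p, q}) (hu : u ≠ q)
    (hv : v ≠ q) (hw : w ≠ q) (hQ : QF r F u v w) : QF r (F.erase q) u v w := by
  intro X' hX'
  obtain ⟨X, hX, h⟩ := ext_mod hpq hm hX'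
  have := hQ X hX
  rw [h u hu, h v hv, h w hw] at this
  exact this

lemma no_three (hr : HB r) (F : Finset ℕ) : ∀ u v w, u ≠ v → u ≠ w → v ≠ w → u ∈ F → v ∈ F →
    w ∈ F → QF r F u v w → False := by
  classical
  induction F using Finset.strongInduction with
  | H F ih =>
    intro u v w huv huw hvw hu hv hw hQ
    have hc : ({u, v, w} : Finset ℕ).card ≤ F.card := by
      apply Finset.card_le_card
      intro z hz
      simp only [Finset.mem_insert, Finset.mem_singleton] at hz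
      rcases hz with rfl | rfl | rfl <;> assumption
    have hc3 : ({u, v, w} : Finset ℕ).card = 3 := Finset.card_eq_three.mpr
      ⟨u, v, w, huv, huw, hvw, rfl⟩
    obtain ⟨p, q, hpq, hm⟩ := two_mod hr F (by omega)
    have hp : p ∈ F := hm.1 (by simp)
    have hq : q ∈ F := hm.1 (by simp)
    have hm' : MdF r F {q, p} := by
      rw [Finset.pair_comm]
      exact hm
    by_cases hqn : u ≠ q ∧ v ≠ q ∧ w ≠ q
    · obtain ⟨h1, h2, h3⟩ := hqn
      exact ih (F.erase q) (Finset.erase_ssubset hq) u v w huv huw hvw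
        (Finset.mem_erase.mpr ⟨h1, hu⟩) (Finset.mem_erase.mpr ⟨h2, hv⟩)
        (Finset.mem_erase.mpr ⟨h3, hw⟩) (QF_step hpq hm h1 h2 h3 hQ)
    by_cases hpn : u ≠ p ∧ v ≠ p ∧ w ≠ p
    · obtain ⟨h1, h2, h3⟩ := hpn
      exact ih (F.erase p) (Finset.erase_ssubset hp) u v w huv huw hvw
        (Finset.mem_erase.mpr ⟨h1, hu⟩) (Finset.mem_erase.mpr ⟨h2, hv⟩)
        (Finset.mem_erase.mpr ⟨h3, hw⟩) (QF_step hpq.symm hm' h1 h2 h3 hQ)
    have hq' : u = q ∨ v = q ∨ w = q := by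
      by_contra h
      push Not at h
      exact hqn h
    have hp' : u = p ∨ v = p ∨ w = p := by
      by_contra h
      push Not at h
      exact hpn h
    obtain ⟨Q1, Q2, Q3⟩ := hQ _ hm
    simp only [Finset.mem_insert, Finset.mem_singleton] at Q1 Q2 Q3
    omega

/-- step one -/
lemma not_all (hr : HB r) {u v w : ℕ} (huv : u ≠ v) (huw : u ≠ w) (hvw : v ≠ w) :
    ¬ (w ∈ mlB r u v ∧ v ∈ mlB r u w ∧ u ∈ mlB r v w) := by
  classical
  rintro ⟨h1, h2, h3⟩
  obtain ⟨F1, g1, k1⟩ := fin_wit h1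
  obtain ⟨F2, g2, k2⟩ := fin_wit h2
  obtain ⟨F3, g3, k3⟩ := fin_wit h3
  refine no_three hr (F1 ∪ F2 ∪ F3) u v w huv huw hvw (by simp [g3]) (by simp [g2])
    (by simp [g1]) fun X hX => ⟨fun a b => ?_, fun a b => ?_, fun a b => ?_⟩
  · exact k1 _ (fun z hz => by simp [hz]) X hX a b
  · exact k2 _ (fun z hz => by simp [hz]) X hX a b
  · exact k3 _ (fun z hz => by simp [hz]) X hX a b

/-- The C-relation. -/
def dmB (r : ℕ → ℕ → ℕ → Bool) (u v w : ℕ) : Prop :=
  w ∉ mlB r u v ∧ v ∈ mlB r u w ∧ u ∈ mlB r v w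

/-- A transitive pattern. -/
def Tr3 (r : ℕ → ℕ → ℕ → Bool) (p q s : ℕ) : Prop :=
  ∀ i, r i p q = r i p s ∧ r i p s = r i q s ∧ r i q p = r i s p ∧ r i s p = r i s q

/-- the star lemma -/
lemma star3 (hr : HB r) {u v w : ℕ} (huv : u ≠ v) (huw : u ≠ w) (hvw : v ≠ w)
    (h1 : ¬ dmB r u v w) (h2 : ¬ dmB r u w v) (h3 : ¬ dmB r v w u) :
    Tr3 r v u w ∨ Tr3 r u v w ∨ Tr3 r u w v := by
  have h0 := not_all hr huv huw hvw
  unfold dmB at h1 h2 h3
  rw [mlB_comm w v] at h2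
  rw [mlB_comm v u, mlB_comm w u] at h3
  by_cases hA : w ∈ mlB r u v
  · have hB : v ∉ mlB r u w := fun hB => by tauto
    have hD : u ∉ mlB r v w := fun hD => by tauto
    right; right
    intro i
    have kB := mlB_md hB i
    have kD := mlB_md hD i
    exact ⟨kD.2.symm, kB.1, kD.1.symm, kB.2⟩
  · have kA := fun i => mlB_md hA i
    by_cases hB : v ∈ mlB r u w
    · have hD : u ∉ mlB r v w := fun hD => by tauto
      right; left
      intro i
      have kD := mlB_md hD i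
      exact ⟨kD.2, (kA i).1, kD.1, (kA i).2⟩
    · left
      intro i
      have kB := mlB_md hB i
      exact ⟨kB.2, (kA i).1.symm, kB.1, (kA i).2.symm⟩

/-! ### The lexicographic order -/

/-- the strict lexicographic order -/
def LX (s t : ℕ → Bool) : Prop := ∃ i, (∀ j, j < i → s j = t j) ∧ s i = false ∧ t i = true

lemma LX_asymm {s t : ℕ → Bool} (h : LX s t) : ¬ LX t s := by
  obtain ⟨i, h1, h2, h3⟩ := h
  rintro ⟨j, k1, k2, k3⟩
  rcases lt_trichotomy i j with h | h | h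
  · rw [k1 i h, h2] at h3
    exact absurd h3 (by decide)
  · rw [h, k2] at h3
    exact absurd h3 (by decide)
  · rw [← h1 j h, k3] at k2
    exact absurd k2 (by decide)

lemma LX_eq {s t : ℕ → Bool} (h : ¬ LX s t) (h' : ¬ LX t s) : s = t := by
  classical
  by_contra hne
  have hex : ∃ i, s i ≠ t i := by
    by_contra hcon
    push Not at hcon
    exact hne (funext hcon)
  have hmin : ∀ j, j < Nat.find hex → s j = t j := fun j hj => by
    by_contra hj'
    exact Nat.find_min hex hj hj'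
  have hsp := Nat.find_spec hex
  rcases hs : s (Nat.find hex) with _ | _
  · rcases ht : t (Nat.find hex) with _ | _
    · exact hsp (hs.trans ht.symm)
    · exact h ⟨Nat.find hex, hmin, hs, ht⟩
  · rcases ht : t (Nat.find hex) with _ | _
    · exact h' ⟨Nat.find hex, fun j hj => (hmin j hj).symm, ht, hs⟩
    · exact hsp (hs.trans ht.symm)

open Classical in
/-- the minimum -/
noncomputable def mn (s t : ℕ → Bool) : ℕ → Bool := if LX t s then t else s

open Classical in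
/-- the maximum -/
noncomputable def mx (s t : ℕ → Bool) : ℕ → Bool := if LX t s then s else t

lemma mn_comm (s t : ℕ → Bool) : mn s t = mn t s := by
  unfold mn
  by_cases h1 : LX t s
  · rw [if_pos h1, if_neg (LX_asymm h1)]
  · rw [if_neg h1]
    by_cases h2 : LX s t
    · rw [if_pos h2]
    · rw [if_neg h2]
      exact LX_eq h2 h1

lemma mx_comm (s t : ℕ → Bool) : mx s t = mx t s := by
  unfold mx
  by_cases h1 : LX t s
  · rw [if_pos h1, if_neg (LX_asymm h1)]
  · rw [if_neg h1]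
    by_cases h2 : LX s t
    · rw [if_pos h2]
    · rw [if_neg h2]
      exact (LX_eq h2 h1).symm

/-- the values of a pair -/
def vl (r : ℕ → ℕ → ℕ → Bool) (x y : ℕ) : ℕ → Bool := fun i => r i x y

/-- The pair `(u, w)` is before `(w, u)` in the lexicographic order. -/
def bfB (r : ℕ → ℕ → ℕ → Bool) (u w : ℕ) : Prop :=
  ∃ i, (∀ j, j < i → r j u w = r j w u) ∧ r i u w = false ∧ r i w u = true

lemma bfB_iff (u w : ℕ) : bfB r u w ↔ LX (vl r u w) (vl r w u) := Iff.rfl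

lemma bfB_asymm {u w : ℕ} (h : bfB r u w) : ¬ bfB r w u := LX_asymm h

lemma bfB_ne {u w : ℕ} (h : bfB r u w) : u ≠ w := by
  rintro rfl
  exact bfB_asymm h h

lemma Tr3.vls {p q s : ℕ} (h : Tr3 r p q s) : vl r p s = vl r p q ∧ vl r q s = vl r p q ∧
    vl r s p = vl r q p ∧ vl r s q = vl r q p :=
  ⟨funext fun i => (h i).1.symm, funext fun i => ((h i).1.trans (h i).2.1).symm,
    funext fun i => (h i).2.2.1.symm, funext fun i => ((h i).2.2.1.trans (h i).2.2.2).symm⟩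

/-! ### The calculus of the C-relation -/

/-- A C-relation compatible with the structure. -/
structure CR (r : ℕ → ℕ → ℕ → Bool) (C : ℕ → ℕ → ℕ → Prop) : Prop where
  symm : ∀ {u v w}, C u v w → C v u w
  c2 : ∀ {u v w}, C u v w → ¬ C u w v
  c3 : ∀ {u v w}, C u v w → ∀ z, C u v z ∨ C z v w
  refl : ∀ {u w}, u ≠ w → C u u w
  irr : ∀ u v, ¬ C u v u
  md : ∀ {u v w}, C u v w → ∀ i, r i u w = r i v w ∧ r i w u = r i w v
  star : ∀ {u v w}, u ≠ v → u ≠ w → v ≠ w → ¬ C u v w → ¬ C u w v → ¬ C v w u →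
    Tr3 r v u w ∨ Tr3 r u v w ∨ Tr3 r u w v

/-- The node. -/
def nd (C : ℕ → ℕ → ℕ → Prop) (u v : ℕ) : Set ℕ := {w | ¬ C u v w}

/-- The child. -/
def chd (C : ℕ → ℕ → ℕ → Prop) (u v : ℕ) : Set ℕ := {w | w = u ∨ C u w v}

/-- The final segment. -/
def fs (r : ℕ → ℕ → ℕ → Bool) (C : ℕ → ℕ → ℕ → Prop) (u v : ℕ) : Set ℕ :=
  {w | w = u ∨ (bfB r v u ∧ ¬ C u v w ∧ (C u w v ∨ bfB r u w))}

section

variable {C : ℕ → ℕ → ℕ → Prop} (h : CR r C)

include h

lemma CR.irr' (u v : ℕ) : ¬ C u v v := fun k => h.irr v u (h.symm k)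

lemma CR.ne {u v w : ℕ} (k : C u v w) : u ≠ w := by
  rintro rfl
  exact h.irr _ _ k

lemma CR.ne' {u v w : ℕ} (k : C u v w) : v ≠ w := by
  rintro rfl
  exact h.irr' _ _ k

lemma CR.trans {u v w z : ℕ} (h1 : C u v w) (h2 : C v z w) : C u z w := by
  rcases h.c3 h2 u with h3 | h3
  · rcases h.c3 (h.symm h1) z with h4 | h4
    · exact absurd h4 (h.c2 h3)
    · exact h.symm h4
  · exact h3

lemma CR.R1 {u v w : ℕ} (k : C u w v) : nd C u v = nd C w v := by
  have key : ∀ {u w : ℕ}, C u w v → ∀ z, C u v z → C w v z := by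
    intro u w k z hz
    rcases h.c3 hz w with h1 | h1
    · exact absurd h1 (h.c2 k)
    · exact h1
  ext z
  exact ⟨fun hz k' => hz (key (h.symm k) z k'), fun hz k' => hz (key k z k')⟩

lemma CR.R2 {u v w : ℕ} (k1 : ¬ C u v w) (k2 : ¬ C u w v) : nd C u v = nd C u w := by
  ext z
  refine ⟨fun hz k' => hz ?_, fun hz k' => hz ?_⟩
  · rcases h.c3 (h.symm k') v with h1 | h1
    · exact absurd (h.symm h1) k2
    · exact h.symm h1
  · rcases h.c3 (h.symm k') w with h1 | h1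
    · exact absurd (h.symm h1) k1
    · exact h.symm h1

lemma CR.nd_comm (u v : ℕ) : nd C u v = nd C v u := by
  ext z
  exact ⟨fun hz k => hz (h.symm k), fun hz k => hz (h.symm k)⟩

lemma CR.left (u v : ℕ) : u ∈ nd C u v := h.irr u v

lemma CR.right (u v : ℕ) : v ∈ nd C u v := h.irr' u v

lemma CR.nd_self {u z : ℕ} (k : z ∈ nd C u u) : z = u := by
  by_contra hne
  exact k (h.refl (fun e => hne e.symm))

lemma CR.chd_mem {u v z : ℕ} (huv : u ≠ v) : z ∈ chd C u v ↔ C u z v := by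
  constructor
  · rintro (rfl | k)
    · exact h.refl huv
    · exact k
  · exact fun k => Or.inr k

/-- a node has two elements -/
lemma CR.D_irr {u v x : ℕ} (huv : u ≠ v) : nd C x x ≠ nd C u v := by
  intro e
  have h1 : u ∈ nd C x x := by rw [e]; exact h.left u v
  have h2 : v ∈ nd C x x := by rw [e]; exact h.right u v
  exact huv ((h.nd_self h1).trans (h.nd_self h2).symm)

lemma CR.D_C {x y z : ℕ} (hy : y ∈ nd C x z) (hxy : nd C x y ≠ nd C x z) : C x y z := by
  by_contra k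
  exact hxy (h.R2 hy k).symm

lemma CR.D_tr {N : Set ℕ} {x y z : ℕ} (hy : y ∈ N) (h1 : nd C x y ≠ N) (h2 : nd C y z ≠ N) :
    nd C x z ≠ N := by
  rintro rfl
  exact h2 (h.R1 (h.D_C hy h1)).symm

lemma CR.D_ne {u v x y : ℕ} (huv : u ≠ v) (k : nd C x y = nd C u v) : x ≠ y := by
  rintro rfl
  exact h.D_irr huv k

/-- the star -/
lemma CR.D_star {u v x y z : ℕ} (huv : u ≠ v) (k1 : nd C x y = nd C u v) (k2 : nd C x z = nd C u v)
    (k3 : nd C y z = nd C u v) : Tr3 r y x z ∨ Tr3 r x y z ∨ Tr3 r x z y := by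
  have hx : x ∈ nd C y z := by rw [k3, ← k1]; exact h.left x y
  have hy : y ∈ nd C x z := by rw [k2, ← k1]; exact h.right x y
  have hz : z ∈ nd C x y := by rw [k1, ← k2]; exact h.right x z
  exact h.star (h.D_ne huv k1) (h.D_ne huv k2) (h.D_ne huv k3) hz hy hx

lemma CR.vls {x y z : ℕ} (k : C x y z) : vl r x z = vl r y z ∧ vl r z x = vl r z y :=
  ⟨funext fun i => (h.md k i).1, funext fun i => (h.md k i).2⟩

lemma CR.tT {u v x y z : ℕ} (huv : u ≠ v) (k1 : nd C x y = nd C u v) (k2 : nd C x z = nd C u v)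
    (k3 : nd C y z = nd C u v) (b1 : bfB r x y) (b2 : bfB r y z) : bfB r x z := by
  rw [bfB_iff] at *
  rcases h.D_star huv k1 k2 k3 with t | t | t
  · obtain ⟨e1, e2, e3, e4⟩ := t.vls
    rw [e1, e3] at b2
    rw [e2, e4]
    exact b2
  · obtain ⟨e1, e2, e3, e4⟩ := t.vls
    rw [e1, e3]
    exact b1
  · obtain ⟨e1, e2, e3, e4⟩ := t.vls
    rw [e1, e3] at b1
    exact b1

lemma CR.tL {u v x y z : ℕ} (huv : u ≠ v) (k1 : nd C x y = nd C u v) (k2 : nd C x z = nd C u v)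
    (k3 : nd C y z = nd C u v) (b1 : bfB r x y ∨ bfB r y x) : bfB r x z ∨ bfB r z x := by
  simp only [bfB_iff] at *
  rcases h.D_star huv k1 k2 k3 with t | t | t
  · obtain ⟨e1, e2, e3, e4⟩ := t.vls
    rw [e2, e4]
    exact b1.symm
  · obtain ⟨e1, e2, e3, e4⟩ := t.vls
    rw [e1, e3]
    exact b1
  · obtain ⟨e1, e2, e3, e4⟩ := t.vls
    rw [e1, e3] at b1
    exact b1

lemma CR.tV {u v x y z : ℕ} (huv : u ≠ v) (k1 : nd C x y = nd C u v) (k2 : nd C x z = nd C u v)
    (k3 : nd C y z = nd C u v) :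
    mn (vl r x y) (vl r y x) = mn (vl r x z) (vl r z x) ∧
      mx (vl r x y) (vl r y x) = mx (vl r x z) (vl r z x) := by
  rcases h.D_star huv k1 k2 k3 with t | t | t
  · obtain ⟨e1, e2, e3, e4⟩ := t.vls
    rw [e2, e4]
    exact ⟨mn_comm _ _, mx_comm _ _⟩
  · obtain ⟨e1, e2, e3, e4⟩ := t.vls
    rw [e1, e3]
    exact ⟨rfl, rfl⟩
  · obtain ⟨e1, e2, e3, e4⟩ := t.vls
    rw [e1, e3]
    exact ⟨rfl, rfl⟩

/-- the unordered values of the pairs in different children -/
lemma CR.tV' {u v x y z : ℕ} (huv : u ≠ v) (k1 : nd C x y = nd C u v) (k2 : nd C x z = nd C u v) :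
    mn (vl r x y) (vl r y x) = mn (vl r x z) (vl r z x) ∧
      mx (vl r x y) (vl r y x) = mx (vl r x z) (vl r z x) := by
  by_cases k3 : nd C y z = nd C u v
  · exact h.tV huv k1 k2 k3
  · have hz : z ∈ nd C y x := by rw [h.nd_comm y x, k1, ← k2]; exact h.right x z
    have k4 : C y z x := h.D_C hz (by rw [h.nd_comm y x, k1]; exact k3)
    obtain ⟨e1, e2⟩ := h.vls k4
    rw [e1, e2]
    exact ⟨rfl, rfl⟩

lemma CR.col {u v u' v' : ℕ} (huv : u ≠ v) (hN : nd C u v = nd C u' v')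
    (b1 : ¬ bfB r v u) (b2 : ¬ bfB r v' u') (i : ℕ) : r i u v = r i u' v' ∧ r i v u = r i v' u' := by
  have key : mn (vl r u v) (vl r v u) = mn (vl r u' v') (vl r v' u') ∧
      mx (vl r u v) (vl r v u) = mx (vl r u' v') (vl r v' u') := by
    by_cases k : nd C u u' = nd C u v
    · have h1 := h.tV' huv rfl k
      have h2 := h.tV' (x := u') (y := u) (z := v') huv (by rw [h.nd_comm]; exact k) hN.symm
      rw [h1.1, h1.2, ← h2.1, ← h2.2]
      exact ⟨mn_comm _ _, mx_comm _ _⟩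
    · have hu' : u' ∈ nd C u v := by rw [hN]; exact h.left u' v'
      have k4 : C u u' v := h.D_C hu' k
      have k5 : nd C u' v = nd C u v := (h.R1 k4).symm
      have h2 := h.tV' (x := u') (y := v) (z := v') huv k5 hN.symm
      obtain ⟨e1, e2⟩ := h.vls k4
      rw [e1, e2]
      exact h2
  unfold mn mx at key
  rw [bfB_iff] at b1 b2
  rw [if_neg b1, if_neg b2, if_neg b1, if_neg b2] at key
  exact ⟨congrFun key.1 i, congrFun key.2 i⟩

lemma CR.node {a b u v : ℕ} (ha : a ∈ nd C u v) (hb : b ∈ nd C u v) :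
    nd C a b ⊆ nd C u v := by
  intro z hz k
  have h1 : C a v z := (h.c3 k a).resolve_left ha
  have h2 : C a u z := (h.c3 (h.symm k) a).resolve_left (fun k' => ha (h.symm k'))
  have hba : ¬ C b a z := fun k' => hz (h.symm k')
  have h3 : C v a b := (h.c3 (h.symm h1) b).resolve_right hba
  have h4 : C u a b := (h.c3 (h.symm h2) b).resolve_right hba
  exact hb (h.trans h4 (h.symm h3))

lemma CR.child {a b u v : ℕ} (huv : u ≠ v) (ha : a ∈ chd C u v) (hb : b ∉ chd C u v) :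
    chd C u v ⊆ chd C a b := by
  rw [h.chd_mem huv] at ha hb
  intro z hz
  rw [h.chd_mem huv] at hz
  right
  have h1 : C a z v := h.trans (h.symm ha) hz
  have h1' : C z a v := h.symm h1
  rcases h.c3 h1' b with h2 | h2
  · exact h.symm h2
  · exact absurd (h.trans ha (h.symm h2)) hb

lemma CR.fin1 {a b : ℕ} (k : bfB r a b) : b ∈ fs r C b a ∧ a ∉ fs r C b a ∧
    chd C b a ⊆ fs r C b a := by
  refine ⟨Or.inl rfl, ?_, ?_⟩
  · rintro (e | ⟨_, _, k1 | k1⟩)
    · exact bfB_ne k e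
    · exact h.irr' _ _ k1
    · exact bfB_asymm k k1
  · rintro z (rfl | hz)
    · exact Or.inl rfl
    · exact Or.inr ⟨k, fun k' => h.c2 hz k', Or.inl hz⟩

/-- another description of the final segments -/
lemma CR.fs_mem {u v z : ℕ} (k : bfB r v u) : z ∈ fs r C u v ↔
    z ∈ nd C u v ∧ (nd C u z ≠ nd C u v ∨ bfB r u z) := by
  have huv : u ≠ v := (bfB_ne k).symm
  constructor
  · rintro (rfl | ⟨_, h1, h2⟩)
    · exact ⟨h.left _ _, Or.inl (h.D_irr huv)⟩
    · refine ⟨h1, ?_⟩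
      rcases h2 with h2 | h2
      · left
        intro e
        have : v ∈ nd C u z := by rw [e]; exact h.right u v
        exact this h2
      · exact Or.inr h2
  · rintro ⟨h1, h2⟩
    right
    refine ⟨k, h1, ?_⟩
    rcases h2 with h2 | h2
    · exact Or.inl (h.D_C h1 h2)
    · exact Or.inr h2

/-- the final segment of `x` in the node `N` -/
lemma CR.fs_aux {u v u1 u2 z : ℕ} (huv : u ≠ v) (h2 : u2 ∈ nd C u v)
    (hz : z ∈ nd C u v)
    (hor : nd C u1 u2 ≠ nd C u v ∨ bfB r u1 u2) (k : nd C u2 z ≠ nd C u v ∨ bfB r u2 z) :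
    nd C u1 z ≠ nd C u v ∨ bfB r u1 z := by
  by_cases k0 : nd C u1 z = nd C u v
  swap
  · exact Or.inl k0
  right
  by_cases k1 : nd C u1 u2 = nd C u v
  · have b1 : bfB r u1 u2 := hor.resolve_left (fun e => e k1)
    by_cases k2 : nd C u2 z = nd C u v
    · exact h.tT huv k1 k0 k2 b1 (k.resolve_left fun e => e k2)
    · -- `u2` and `z` in the same child
      have k3 : C u2 z u1 := h.D_C (by rw [h.nd_comm, k1]; exact hz)
        (by rw [h.nd_comm u2 u1, k1]; exact k2)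
      obtain ⟨e1, e2⟩ := h.vls k3
      rw [bfB_iff] at b1 ⊢
      rw [← e1, ← e2]
      exact b1
  · -- `u1` and `u2` in the same child
    have k3 : C u1 u2 z := h.D_C (by rw [k0]; exact h2) (by rw [k0]; exact k1)
    have k2 : nd C u2 z = nd C u v := by rw [← h.R1 k3]; exact k0
    have b2 : bfB r u2 z := k.resolve_left fun e => e k2
    obtain ⟨e1, e2⟩ := h.vls k3
    rw [bfB_iff] at b2 ⊢
    rw [e1, e2]
    exact b2

lemma CR.lin {u v x y z : ℕ} (huv : u ≠ v) (k1 : nd C x y = nd C u v) (k2 : nd C x z = nd C u v)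
    (b : bfB r x y ∨ bfB r y x) : bfB r x z ∨ bfB r z x := by
  by_cases k3 : nd C y z = nd C u v
  · exact h.tL huv k1 k2 k3 b
  · have hz : z ∈ nd C y x := by rw [h.nd_comm y x, k1, ← k2]; exact h.right x z
    have k4 : C y z x := h.D_C hz (by rw [h.nd_comm y x, k1]; exact k3)
    obtain ⟨e1, e2⟩ := h.vls k4
    simp only [bfB_iff] at b ⊢
    rw [← e1, ← e2]
    exact b

/-- comparison of two final segments of a node -/
lemma CR.fs_lin {u1 v1 u2 v2 : ℕ} (b1 : bfB r v1 u1) (b2 : bfB r v2 u2)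
    (hN : nd C u1 v1 = nd C u2 v2) :
    fs r C u1 v1 ⊆ fs r C u2 v2 ∨ fs r C u2 v2 ⊆ fs r C u1 v1 := by
  have huv : u1 ≠ v1 := (bfB_ne b1).symm
  have m2 : u2 ∈ nd C u1 v1 := by rw [hN]; exact h.left u2 v2
  have hcase : (nd C u1 u2 ≠ nd C u1 v1 ∨ bfB r u1 u2) ∨
      (nd C u2 u1 ≠ nd C u1 v1 ∨ bfB r u2 u1) := by
    by_cases k : nd C u1 u2 = nd C u1 v1
    · rcases h.lin huv rfl k (Or.inr b1) with b | b
      · exact Or.inl (Or.inr b)
      · exact Or.inr (Or.inr b)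
    · exact Or.inl (Or.inl k)
  rcases hcase with hc | hc
  · right
    intro z hz
    rw [h.fs_mem b2, ← hN] at hz
    rw [h.fs_mem b1]
    exact ⟨hz.1, h.fs_aux huv m2 hz.1 hc hz.2⟩
  · left
    intro z hz
    rw [h.fs_mem b1] at hz
    rw [h.fs_mem b2, ← hN]
    exact ⟨hz.1, h.fs_aux huv (h.left u1 v1) hz.1 hc hz.2⟩

lemma CR.fin2 {a b u v : ℕ} (k : bfB r v u) (hb : b ∈ fs r C u v)
    (ha : a ∉ fs r C u v) (hc : chd C b a ⊆ fs r C u v) : bfB r a b ∧ fs r C b a ⊆ fs r C u v := by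
  have huv : u ≠ v := (bfB_ne k).symm
  have hb' := (h.fs_mem k).mp hb
  have hv : v ∉ fs r C u v := (h.fin1 k).2.1
  have haN : a ∈ nd C u v := by
    by_contra haN
    apply hv
    apply hc
    by_cases e : v = b
    · exact Or.inl e
    · right
      by_contra hC
      exact haN (h.node hb'.1 (h.right u v) hC)
  have hau : nd C u a = nd C u v ∧ ¬ bfB r u a := by
    by_contra hcon
    apply ha
    rw [h.fs_mem k]
    refine ⟨haN, ?_⟩
    by_cases e : nd C u a = nd C u v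
    · right
      by_contra e'
      exact hcon ⟨e, e'⟩
    · exact Or.inl e
  have hD : nd C a b = nd C u v := by
    by_contra hD
    -- `a` and `b` in the same child
    have k3 : C a b u := h.D_C (by rw [h.nd_comm a u, hau.1]; exact hb'.1)
      (by rw [h.nd_comm a u, hau.1]; exact hD)
    have k4 : nd C u b = nd C u v := by
      rw [h.nd_comm u b, ← h.R1 k3, h.nd_comm a u]
      exact hau.1
    have b4 : bfB r u b := hb'.2.resolve_left fun e => e k4
    apply hau.2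
    obtain ⟨e1, e2⟩ := h.vls k3
    rw [bfB_iff] at b4 ⊢
    rw [e1, e2]
    exact b4
  have bau : bfB r a u := by
    rcases h.lin huv (x := u) (y := v) (z := a) rfl hau.1 (Or.inr k) with b | b
    · exact absurd b hau.2
    · exact b
  have bab : bfB r a b := by
    by_cases e : nd C u b = nd C u v
    · exact h.tT huv (by rw [h.nd_comm]; exact hau.1) hD e bau (hb'.2.resolve_left fun e' => e' e)
    · have k3 : C u b a := h.D_C (by rw [hau.1]; exact hb'.1) (by rw [hau.1]; exact e)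
      obtain ⟨e1, e2⟩ := h.vls k3
      rw [bfB_iff] at bau ⊢
      rw [← e1, ← e2]
      exact bau
  refine ⟨bab, fun z hz => ?_⟩
  have hba : nd C b a = nd C u v := by rw [h.nd_comm]; exact hD
  rw [h.fs_mem bab, hba] at hz
  rw [h.fs_mem k]
  exact ⟨hz.1, h.fs_aux huv hb'.1 hz.1 hb'.2 hz.2⟩

/-! ### The family of sets -/

/-- the type of a set with base point `w`: between the child with `w` and the node of `w`, `v` -/
lemma CR.rebase {u v w : ℕ} (huv : u ≠ v) (hw : w ∈ nd C u v) :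
    ∃ v', w ≠ v' ∧ nd C u v = nd C w v' := by
  by_cases k : C u w v
  · exact ⟨v, h.ne' k, h.R1 k⟩
  · refine ⟨u, ?_, ?_⟩
    · rintro rfl
      exact k (h.refl huv)
    · rw [h.nd_comm w u]
      exact h.R2 hw k

lemma CR.chd_rebase {u v w : ℕ} (huv : u ≠ v) (hw : w ∈ chd C u v) :
    w ≠ v ∧ chd C u v = chd C w v ∧ nd C u v = nd C w v := by
  rw [h.chd_mem huv] at hw
  have hwv := h.ne' hw
  refine ⟨hwv, ?_, h.R1 hw⟩
  ext z
  rw [h.chd_mem huv, h.chd_mem hwv]
  exact ⟨fun k => h.trans (h.symm hw) k, fun k => h.trans hw k⟩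

lemma CR.cmp {w v1 v2 : ℕ} (h1 : w ≠ v1) (h2 : w ≠ v2) :
    nd C w v1 ⊆ chd C w v2 ∨ nd C w v2 ⊆ chd C w v1 ∨
      (nd C w v1 = nd C w v2 ∧ chd C w v1 = chd C w v2) := by
  have key : ∀ {v1 v2}, C w v1 v2 → nd C w v1 ⊆ chd C w v2 := by
    intro v1 v2 k z hz
    right
    rcases h.c3 (h.symm k) z with h3 | h3
    · exact absurd (h.symm h3) hz
    · exact h.symm h3
  by_cases k1 : C w v1 v2
  · exact Or.inl (key k1)
  by_cases k2 : C w v2 v1
  · exact Or.inr (Or.inl (key k2))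
  right; right
  refine ⟨h.R2 k1 k2, ?_⟩
  ext z
  rw [h.chd_mem h1, h.chd_mem h2]
  constructor
  · intro k
    rcases h.c3 (h.symm k) v2 with h3 | h3
    · exact h.symm h3
    · exact absurd (h.symm h3) k2
  · intro k
    rcases h.c3 (h.symm k) v1 with h3 | h3
    · exact h.symm h3
    · exact absurd (h.symm h3) k1

/-- the sets of the family with the element `w` -/
def Ty (r : ℕ → ℕ → ℕ → Bool) (C : ℕ → ℕ → ℕ → Prop) (w : ℕ) (S : Set ℕ) : Prop :=
  S = {w} ∨ ∃ v, w ≠ v ∧ chd C w v ⊆ S ∧ S ⊆ nd C w v ∧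
    (S = nd C w v ∨ S = chd C w v ∨ ∃ u' v', bfB r v' u' ∧ nd C u' v' = nd C w v ∧
      S = fs r C u' v')

lemma CR.chd_sub_nd {u v : ℕ} (huv : u ≠ v) : chd C u v ⊆ nd C u v := by
  intro z hz
  rw [h.chd_mem huv] at hz
  exact h.c2 hz

lemma CR.ty_nd {u v w : ℕ} (hw : w ∈ nd C u v) : Ty r C w (nd C u v) := by
  by_cases huv : u = v
  · subst huv
    left
    have e := h.nd_self hw
    subst e
    ext z
    exact ⟨fun hz => h.nd_self hz, fun hz => by rw [mem_singleton_iff.mp hz]; exact h.left _ _⟩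
  · obtain ⟨v', h1, h2⟩ := h.rebase huv hw
    right
    refine ⟨v', h1, ?_, h2.le, Or.inl h2⟩
    rw [h2]
    exact h.chd_sub_nd h1

lemma CR.ty_chd {u v w : ℕ} (hw : w ∈ chd C u v) : Ty r C w (chd C u v) := by
  by_cases huv : u = v
  · subst huv
    left
    have e : ∀ z, z ∈ chd C u u → z = u := by
      rintro z (hz | hz)
      · exact hz
      · exact absurd hz (h.irr u z)
    have e' := e w hw
    subst e'
    ext z
    exact ⟨fun hz => e z hz, fun hz => Or.inl hz⟩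
  · obtain ⟨h1, h2, -⟩ := h.chd_rebase huv hw
    right
    refine ⟨v, h1, h2.symm.le, ?_, Or.inr (Or.inl h2)⟩
    rw [h2]
    exact h.chd_sub_nd h1

lemma CR.ty_fs {u v w : ℕ} (hw : w ∈ fs r C u v) : Ty r C w (fs r C u v) := by
  by_cases k : bfB r v u
  · have huv : u ≠ v := (bfB_ne k).symm
    have hw' := (h.fs_mem k).mp hw
    obtain ⟨v', h1, h2⟩ := h.rebase huv hw'.1
    right
    refine ⟨v', h1, ?_, ?_, Or.inr (Or.inr ⟨u, v, k, h2, rfl⟩)⟩
    · intro z hz
      have hzn : z ∈ nd C u v := by rw [h2]; exact h.chd_sub_nd h1 hz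
      rw [h.chd_mem h1] at hz
      rw [h.fs_mem k]
      refine ⟨hzn, h.fs_aux huv hw'.1 hzn hw'.2 (Or.inl ?_)⟩
      rw [h2]
      intro e
      have : v' ∈ nd C w z := by rw [e]; exact h.right w v'
      exact this hz
    · intro z hz
      rw [← h2]
      exact ((h.fs_mem k).mp hz).1
  · left
    have e : ∀ z, z ∈ fs r C u v → z = u := by
      rintro z (hz | hz)
      · exact hz
      · exact absurd hz.1 k
    have e' := e w hw
    subst e'
    ext z
    exact ⟨fun hz => e z hz, fun hz => Or.inl hz⟩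

lemma CR.ty_lin {w : ℕ} {S T : Set ℕ} (hS : Ty r C w S) (hT : Ty r C w T) (hwS : w ∈ S)
    (hwT : w ∈ T) : S ⊆ T ∨ T ⊆ S := by
  rcases hS with rfl | ⟨v1, n1, a1, a2, a3⟩
  · left
    intro z hz
    rw [mem_singleton_iff.mp hz]
    exact hwT
  rcases hT with rfl | ⟨v2, n2, b1, b2, b3⟩
  · right
    intro z hz
    rw [mem_singleton_iff.mp hz]
    exact hwS
  rcases h.cmp n1 n2 with k | k | ⟨k1, k2⟩
  · exact Or.inl (a2.trans (k.trans b1))
  · exact Or.inr (b2.trans (k.trans a1))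
  rcases a3 with a3 | a3 | ⟨u', v', c1, c2, c3⟩
  · right
    rw [a3, k1]
    exact b2
  · left
    rw [a3, k2]
    exact b1
  rcases b3 with b3 | b3 | ⟨u'', v'', d1, d2, d3⟩
  · left
    rw [b3, ← k1]
    exact a2
  · right
    rw [b3, ← k2]
    exact a1
  rw [c3, d3]
  exact h.fs_lin c1 d1 (by rw [c2, d2, k1])

end

end Pool.Agent.Y259.TH
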